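import Pool.Agent.Helper58.EN.JQ
import Pool.Agent.Helper58.EN.JN
import Pool.Agent.N506.EYN
import Pool.Agent.N506.EXM

/-!
# Locally nilpotent kernels and matrix groups
-/

set_option autoImplicit false

namespace Pool.Agent.U379.PI

open Pool.Agent.Helper58.EN Pool.Agent.N506.EX

universe u v w

/-- Local nilpotency is inherited along injective homomorphisms. -/
theorem LN_comap {R S : Type} [Ring R] [Ring S] (f : R →+* S) (hf : Function.Injective f)
    {I : Set S} (hI : LN I) : LN (f ⁻¹' I) := by
  classical
  intro X hX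
  obtain ⟨N, hN⟩ := hI (X.image f) (by
    intro y hy
    rw [Finset.coe_image] at hy
    obtain ⟨x, hx, rfl⟩ := hy
    exact hX hx)
  refine ⟨N, fun l hl hlen => hf ?_⟩
  rw [map_zero, map_list_prod]
  refine hN _ ?_ (by rw [List.length_map, hlen])
  intro y hy
  rw [List.mem_map] at hy
  obtain ⟨x, hx, rfl⟩ := hy
  exact Finset.mem_image_of_mem _ (hl x hx)

theorem LN_mono {R : Type} [Ring R] {I J : Set R} (hJ : LN J) (h : I ⊆ J) : LN I :=
  fun X hX => hJ X (hX.trans h)

/-- entries of products -/
theorem matrix_prod_mem {R : Type} [Ring R] {n : ℕ} (X : Finset (Matrix (Fin n) (Fin n) R))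
    (Y : Finset R) (hY : ∀ x ∈ X, ∀ i j, x i j ∈ Y) : ∀ (l : List (Matrix (Fin n) (Fin n) R)),
    (∀ x ∈ l, x ∈ X) → ∀ i j, l.prod i j ∈ JP Y l.length := by
  intro l
  induction l with
  | nil =>
    intro _ i j
    rw [List.prod_nil, List.length_nil, Matrix.one_apply]
    split_ifs
    · exact AddSubgroup.subset_closure ⟨[], by simp, by simp, by simp⟩
    · exact zero_mem _
  | cons x l ih =>
    intro h i j
    rw [List.prod_cons, Matrix.mul_apply]
    refine sum_mem fun k _ => ?_
    have h1 : x i k ∈ JP Y 1 := AddSubgroup.subset_closure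
      ⟨[x i k], by simpa using hY x (h x (by simp)) i k, by simp, by simp⟩
    have h2 := JP_mul Y 1 l.length h1 (ih (fun y hy => h y (by simp [hy])) k j)
    rwa [List.length_cons, add_comm l.length 1]

theorem LN_matrix {R : Type} [Ring R] (n : ℕ) {J : Set R} (hJ : LN J) :
    LN {x : Matrix (Fin n) (Fin n) R | ∀ i j, x i j ∈ J} := by
  classical
  intro X hX
  let Y : Finset R := X.biUnion fun x => Finset.univ.biUnion fun i => Finset.univ.image fun j =>
    x i j
  have hY : ∀ x ∈ X, ∀ i j, x i j ∈ Y := by
    intro x hx i j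
    simp only [Y, Finset.mem_biUnion, Finset.mem_image, Finset.mem_univ, true_and]
    exact ⟨x, hx, i, j, rfl⟩
  obtain ⟨N, hN⟩ := hJ Y (by
    intro y hy
    simp only [Y, Finset.coe_biUnion, Set.mem_iUnion, Finset.mem_coe, Finset.mem_image,
      Finset.mem_univ, true_and] at hy
    obtain ⟨x, hx, i, _, j, rfl⟩ := hy
    exact hX hx i j)
  refine ⟨N, fun l hl hlen => ?_⟩
  ext i j
  have h := matrix_prod_mem X Y hY l hl i j
  rw [hlen] at h
  exact JP_bot Y N hN h

theorem coeff_mul_mem {R : Type} [Ring R] {G : Type} [Monoid G] (Y : Finset R) {p q : ℕ}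
    {x y : MonoidAlgebra R G} (hx : ∀ g, x.coeff g ∈ JP Y p) (hy : ∀ g, y.coeff g ∈ JP Y q) :
    ∀ g, (x * y).coeff g ∈ JP Y (p + q) := by
  classical
  intro g
  rw [← MonoidAlgebra.sum_coeff_single x, ← MonoidAlgebra.sum_coeff_single y, Finsupp.sum,
    Finsupp.sum, Finset.sum_mul_sum]
  rw [MonoidAlgebra.coeff_sum, Finsupp.finsetSum_apply]
  refine sum_mem fun a _ => ?_
  rw [MonoidAlgebra.coeff_sum, Finsupp.finsetSum_apply]
  refine sum_mem fun b _ => ?_
  rw [MonoidAlgebra.single_mul_single, MonoidAlgebra.coeff_single, Finsupp.single_apply]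
  split_ifs
  · exact JP_mul Y p q (hx a) (hy b)
  · exact zero_mem _

theorem LN_monoidAlgebra {R : Type} [Ring R] (G : Type) [Monoid G] {J : Set R} (hJ : LN J)
    (h0 : (0 : R) ∈ J) : LN {x : MonoidAlgebra R G | ∀ g, x.coeff g ∈ J} := by
  classical
  intro X hX
  let Y : Finset R := X.biUnion fun x => insert 0 (x.coeff.support.image fun g => x.coeff g)
  have hY : ∀ x ∈ X, ∀ g, x.coeff g ∈ Y := by
    intro x hx g
    simp only [Y, Finset.mem_biUnion]
    refine ⟨x, hx, ?_⟩
    by_cases h : x.coeff g = 0
    · rw [h]; exact Finset.mem_insert_self _ _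
    · refine Finset.mem_insert_of_mem (Finset.mem_image_of_mem (fun g => x.coeff g) ?_)
      exact Finsupp.mem_support_iff.mpr h
  obtain ⟨N, hN⟩ := hJ Y (by
    intro y hy
    simp only [Y, Finset.coe_biUnion, Set.mem_iUnion, Finset.coe_insert] at hy
    obtain ⟨x, hx, hy⟩ := hy
    rcases hy with rfl | hy
    · exact h0
    · rw [Finset.mem_coe, Finset.mem_image] at hy
      obtain ⟨g, _, rfl⟩ := hy
      exact hX hx g)
  have key : ∀ l : List (MonoidAlgebra R G), (∀ x ∈ l, x ∈ X) →
      ∀ g, l.prod.coeff g ∈ JP Y l.length := by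
    intro l
    induction l with
    | nil =>
      intro _ g
      rw [List.prod_nil, List.length_nil, MonoidAlgebra.one_def, MonoidAlgebra.coeff_single,
        Finsupp.single_apply]
      split_ifs
      · exact AddSubgroup.subset_closure ⟨[], by simp, by simp, by simp⟩
      · exact zero_mem _
    | cons x l ih =>
      intro h g
      rw [List.prod_cons, List.length_cons, add_comm l.length 1]
      refine coeff_mul_mem Y (fun g => ?_) (ih (fun y hy => h y (by simp [hy]))) g
      exact AddSubgroup.subset_closure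
        ⟨[x.coeff g], by simpa using hY x (h x (by simp)) g, by simp, by simp⟩
  refine ⟨N, fun l hl hlen => ?_⟩
  rw [← MonoidAlgebra.coeff_inj]
  ext g
  have h := key l hl g
  rw [hlen] at h
  exact JP_bot Y N hN h

/-- A group with finitely many homomorphisms to exact groups, with exact common kernel. -/
theorem ex_family {ι : Type w} {H : ι → Type v} [∀ i, Group (H i)] (hH : ∀ i, Ex (H i))
    (s : Finset ι) : ∀ (P : Type u) [Group P] (f : ∀ i, P →* H i) (K : Subgroup P),
    (∀ p, p ∈ K ↔ ∀ i ∈ s, f i p = 1) → Ex K → Ex P := by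
  classical
  induction s using Finset.induction_on with
  | empty =>
    intro P _ f K hK hex
    have h1 : K = ⊤ := by
      rw [Subgroup.eq_top_iff']
      intro p
      rw [hK]
      simp
    subst h1
    exact (Ex.equiv Subgroup.topEquiv).mp hex
  | insert a s ha ih =>
    intro P _ f K hK hex
    refine Ex.ext (f a) (hH a) ?_
    refine ih (f a).ker (fun i => (f i).comp (f a).ker.subtype)
      (K.comap (f a).ker.subtype) ?_ ?_
    · intro p
      rw [Subgroup.mem_comap, hK]
      constructor
      · intro h i hi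
        exact h i (Finset.mem_insert_of_mem hi)
      · intro h i hi
        rcases Finset.mem_insert.mp hi with rfl | hi
        · exact p.2
        · exact h i hi
    · refine Ex.of_injective hex
        (((f a).ker.subtype.comp (K.comap (f a).ker.subtype).subtype).codRestrict K
          (fun x => x.2)) ?_
      intro x y hxy
      apply Subtype.ext
      apply Subtype.ext
      exact congrArg (fun z : K => (z : P)) hxy

/-- Finitely many homomorphisms with a locally nilpotent common kernel. -/
theorem mex_family {R : Type} [Ring R] {ι : Type} [Fintype ι] (S : ι → Type) [∀ i, Ring (S i)]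
    (f : ∀ i, R →+* S i) (hS : ∀ i, MEx (S i)) (hLN : LN {x : R | ∀ i, f i x = 0}) : MEx R := by
  classical
  intro n
  let J : Ideal (Matrix (Fin n) (Fin n) R) :=
    { carrier := {x | ∀ i j, x i j ∈ {x : R | ∀ i, f i x = 0}}
      add_mem' := by
        intro x y hx hy i j k
        rw [Matrix.add_apply, map_add, hx i j k, hy i j k, add_zero]
      zero_mem' := by
        intro i j k
        rw [Matrix.zero_apply, map_zero]
      smul_mem' := by
        intro c x hx i j k
        rw [smul_eq_mul, Matrix.mul_apply, map_sum]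
        exact Finset.sum_eq_zero fun l _ => by rw [map_mul, hx l j k, mul_zero] }
  have hJ2 : J.IsTwoSided := by
    constructor
    intro x y hx i j k
    rw [Matrix.mul_apply, map_sum]
    exact Finset.sum_eq_zero fun l _ => by rw [map_mul, hx i l k, zero_mul]
  have hJ : LN (J : Set (Matrix (Fin n) (Fin n) R)) := LN_matrix n hLN
  let K : Subgroup (Matrix (Fin n) (Fin n) R)ˣ := ⨅ i, (glMap n (f i)).ker
  refine ex_family (fun i => hS i n) Finset.univ _ (fun i => glMap n (f i)) K ?_ ?_
  · intro p
    simp only [K, Subgroup.mem_iInf, MonoidHom.mem_ker, Finset.mem_univ, true_implies]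
  · refine Ex.of_fg fun U hU => ?_
    obtain ⟨F, hF⟩ := hU
    have hsol : Group.IsSolvable (Subgroup.closure
        ((F.image fun x : K => (x : (Matrix (Fin n) (Fin n) R)ˣ) :
          Finset (Matrix (Fin n) (Fin n) R)ˣ) : Set (Matrix (Fin n) (Fin n) R)ˣ)) := by
      refine ln_solvable J hJ _ ?_
      intro u hu
      rw [Finset.mem_image] at hu
      obtain ⟨x, _, rfl⟩ := hu
      intro i j k
      have hx : (x : (Matrix (Fin n) (Fin n) R)ˣ) ∈ K := x.2
      simp only [K, Subgroup.mem_iInf, MonoidHom.mem_ker] at hx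
      have h1 := congrArg (fun y : (Matrix (Fin n) (Fin n) (S k))ˣ =>
        (y : Matrix (Fin n) (Fin n) (S k)) i j) (hx k)
      simp only [Units.val_one] at h1
      rw [Matrix.sub_apply, map_sub]
      change (glMap n (f k) (x : (Matrix (Fin n) (Fin n) R)ˣ) : Matrix (Fin n) (Fin n) (S k)) i j -
        _ = 0
      rw [h1, Matrix.one_apply, Matrix.one_apply]
      split_ifs <;> simp
    have hE : Ex (Subgroup.closure
        ((F.image fun x : K => (x : (Matrix (Fin n) (Fin n) R)ˣ) :
          Finset (Matrix (Fin n) (Fin n) R)ˣ) : Set (Matrix (Fin n) (Fin n) R)ˣ)) :=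
      Am.ex Am.of_solvable
    refine Ex.of_injective hE ((K.subtype.comp U.subtype).codRestrict _ ?_) ?_
    · intro x
      have h1 : (x : K) ∈ Subgroup.closure (F : Set K) := by rw [hF]; exact x.2
      have h2 := Subgroup.mem_map_of_mem K.subtype h1
      rw [MonoidHom.map_closure] at h2
      rw [Finset.coe_image]
      exact h2
    · intro x y hxy
      apply Subtype.ext
      apply Subtype.ext
      have h := Subtype.ext_iff.mp hxy
      exact h

end Pool.Agent.U379.PI
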