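import Pool.Agent.U379.PI.A
import Pool.Agent.Helper58.EN.JV
import Pool.Agent.Helper58.EN.JW

/-!
# Identities of degree `k` and matrix rings of size at most `k / 2`
-/

set_option autoImplicit false

namespace Pool.Agent.U379.PI

open Pool.Agent.Helper58.EN

/-- matrix units indexed by natural numbers -/
def E2 (K : Type) [Field K] (j : ℕ) (a b : ℕ) : Matrix (Fin j) (Fin j) K :=
  Matrix.of (fun u v => if u.val = a ∧ v.val = b then 1 else 0)

/-- a path from `u` to `v` with the edges `(s i, t i)` -/
def Path : ∀ (n : ℕ) (_ _ : Fin n → ℕ) (_ _ : ℕ), Prop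
  | 0, _, _, u, v => u = v
  | n + 1, s, t, u, v => s 0 = u ∧ Path n (fun i => s i.succ) (fun i => t i.succ) (t 0) v

instance : ∀ (n : ℕ) (s t : Fin n → ℕ) (u v : ℕ), Decidable (Path n s t u v)
  | 0, _, _, u, v => inferInstanceAs (Decidable (u = v))
  | n + 1, s, t, u, v => by
    have := instDecidablePath n (fun i => s i.succ) (fun i => t i.succ) (t 0) v
    exact inferInstanceAs (Decidable (_ ∧ _))

theorem prodE2 {K : Type} [Field K] {j : ℕ} (n : ℕ) : ∀ (s t : Fin n → ℕ), (∀ i, t i < j) →
    ∀ u v : Fin j, (List.ofFn (fun i => E2 K j (s i) (t i))).prod u v =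
      if Path n s t u.val v.val then 1 else 0 := by
  induction n with
  | zero =>
    intro s t _ u v
    simp only [List.ofFn_zero, List.prod_nil, Matrix.one_apply]
    refine if_congr ?_ rfl rfl
    exact Fin.ext_iff
  | succ n ih =>
    intro s t ht u v
    rw [List.ofFn_succ, List.prod_cons, Matrix.mul_apply]
    have h1 : ∀ w : Fin j, E2 K j (s 0) (t 0) u w *
        (List.ofFn (fun i : Fin n => E2 K j (s i.succ) (t i.succ))).prod w v =
        if w = ⟨t 0, ht 0⟩ then (if s 0 = u.val then
          (List.ofFn (fun i : Fin n => E2 K j (s i.succ) (t i.succ))).prod w v else 0) else 0 := by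
      intro w
      simp only [E2, Matrix.of_apply]
      by_cases hw : w = ⟨t 0, ht 0⟩
      · have hw' : w.val = t 0 := by rw [hw]
        by_cases hu : s 0 = u.val
        · rw [if_pos ⟨hu.symm, hw'⟩, if_pos hw, if_pos hu, one_mul]
        · rw [if_neg (fun h => hu h.1.symm), if_pos hw, if_neg hu, zero_mul]
      · have hw' : ¬ w.val = t 0 := fun h => hw (Fin.ext h)
        rw [if_neg (fun h => hw' h.2), if_neg hw, zero_mul]
    rw [Finset.sum_congr rfl (fun w _ => h1 w), Finset.sum_ite_eq' Finset.univ,
      if_pos (Finset.mem_univ _)]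
    by_cases hu : s 0 = u.val
    · rw [if_pos hu, ih (fun i => s i.succ) (fun i => t i.succ) (fun i => ht i.succ)]
      refine if_congr ?_ rfl rfl
      exact ⟨fun h => ⟨hu, h⟩, fun h => h.2⟩
    · rw [if_neg hu, if_neg]
      exact fun h => hu h.1

theorem Path.step : ∀ {n : ℕ} {s t : Fin n → ℕ} {u v : ℕ}, Path n s t u v →
    ∀ (i : ℕ) (h : i + 1 < n), t ⟨i, by omega⟩ = s ⟨i + 1, h⟩ := by
  intro n
  induction n with
  | zero => intro s t u v _ i h; omega
  | succ n ih =>
    intro s t u v hp i h
    obtain ⟨h1, h2⟩ := hp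
    cases i with
    | zero =>
      cases n with
      | zero => omega
      | succ n =>
        have h3 := h2.1
        exact h3.symm
    | succ i =>
      have := ih h2 i (by omega)
      exact this

theorem path_id : ∀ (n m : ℕ), Path n (fun i => (i.val + m) / 2) (fun i => (i.val + m + 1) / 2)
    (m / 2) ((n + m) / 2) := by
  intro n
  induction n with
  | zero => intro m; show m / 2 = (0 + m) / 2; rw [Nat.zero_add]
  | succ n ih =>
    intro m
    refine ⟨by simp, ?_⟩
    have := ih (m + 1)
    have e1 : (fun i : Fin n => (i.val + (m + 1)) / 2) =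
        fun i : Fin n => ((i.succ : Fin (n + 1)).val + m) / 2 := by
      funext i
      rw [Fin.val_succ]
      congr 1
      omega
    have e2 : (fun i : Fin n => (i.val + (m + 1) + 1) / 2) =
        fun i : Fin n => ((i.succ : Fin (n + 1)).val + m + 1) / 2 := by
      funext i
      rw [Fin.val_succ]
      congr 1
      omega
    rw [e1, e2] at this
    have e3 : n + 1 + m = n + (m + 1) := by omega
    rw [e3]
    simpa using this

/-- the staircase argument of Amitsur and Levitzki -/
theorem rep_le' {R : Type} [Ring R] (d : ℕ) (c : Equiv.Perm (Fin d) → ℤ) (hc : c 1 = 1)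
    (hPI : PI d c R) {K : Type} [Field K] {j : ℕ} (φ : R →+* Matrix (Fin j) (Fin j) K)
    (hφ : Submodule.span K (Set.range φ) = ⊤) : 2 * j ≤ d := by
  classical
  by_contra hcon
  push Not at hcon
  have h1 := idMap_zero d c hPI φ hφ d le_rfl
    (fun i => E2 K j (i.val / 2) ((i.val + 1) / 2)) (fun i hi => by
    have := i.2; omega)
  rw [idMap_apply] at h1
  have h2 := congrFun (congrFun h1 ⟨0, by omega⟩) ⟨d / 2, by omega⟩
  rw [Matrix.sum_apply] at h2
  have h3 : ∀ σ : Equiv.Perm (Fin d), (((c σ : ℤ) : K) •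
      (List.ofFn (fun i => E2 K j ((σ i).val / 2) (((σ i).val + 1) / 2))).prod)
        ⟨0, by omega⟩ ⟨d / 2, by omega⟩ = if σ = 1 then 1 else 0 := by
    intro σ
    rw [Matrix.smul_apply, prodE2 d (fun i => (σ i).val / 2) (fun i => ((σ i).val + 1) / 2)
      (fun i => by have := (σ i).2; omega)]
    by_cases hσ : σ = 1
    · subst hσ
      have := path_id d 0
      rw [if_pos (by simpa using this), if_pos rfl, hc]
      simp
    · rw [if_neg, if_neg hσ, smul_zero]
      intro hp
      apply hσ
      have hmono : StrictMono σ := by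
        cases d with
        | zero => intro a; exact a.elim0
        | succ d =>
          rw [Fin.strictMono_iff_lt_succ]
          intro i
          have h4 := hp.step i.val (by have := i.2; omega)
          have h5 : (σ i.castSucc).val ≠ (σ i.succ).val := by
            intro h
            have := σ.injective (Fin.ext h)
            exact absurd this (Fin.castSucc_lt_succ).ne
          have h6 : (⟨i.val, by have := i.2; omega⟩ : Fin (d + 1)) = i.castSucc := rfl
          have h7 : (⟨i.val + 1, by have := i.2; omega⟩ : Fin (d + 1)) = i.succ := rfl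
          simp only [h6, h7] at h4
          rw [Fin.lt_def]
          omega
      have h8 : (σ : Fin d → Fin d) = id := (StrictMono.range_inj hmono strictMono_id).mp (by
        rw [σ.surjective.range_eq, Function.surjective_id.range_eq])
      ext i
      rw [h8]
      rfl
  rw [Finset.sum_congr rfl (fun σ _ => h3 σ), Finset.sum_ite_eq' Finset.univ,
    if_pos (Finset.mem_univ _)] at h2
  simp at h2

/-- `R` has a locally nilpotent two-sided ideal `I` for which `R ⧸ I` satisfies a multilinear
identity `∑ σ, c σ * x (σ 1) * ... * x (σ k) = 0` of degree `k` with integer coefficients and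
`c 1 = 1`. -/
def NilByPIdeg (k : ℕ) (R : Type) [Ring R] : Prop :=
  ∃ (I : Ideal R) (_ : I.IsTwoSided) (c : Equiv.Perm (Fin k) → ℤ),
    c 1 = 1 ∧ LN (I : Set R) ∧ Pool.Agent.Helper58.EN.PI k c (R ⧸ I)

theorem NilByPIdeg.reps {k : ℕ} {R : Type} [Ring R] (h : NilByPIdeg k R) :
    ∃ (J : Ideal R), J.IsTwoSided ∧ LN (J : Set R) ∧ ∀ r, r ∉ J →
      ∃ (K : Type) (_ : Field K) (j : ℕ) (φ : R →+* Matrix (Fin j) (Fin j) K),
        2 * j ≤ k ∧ φ r ≠ 0 := by
  classical
  obtain ⟨I, hI, c, hc, hLN, hPI⟩ := h
  obtain ⟨L, hL2, hLLN, hL0⟩ := exists_levitzki (R ⧸ I)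
  let J : Ideal R := L.comap (Ideal.Quotient.mk I)
  have hPI' : Pool.Agent.Helper58.EN.PI k c ((R ⧸ I) ⧸ L) := by
    intro x
    choose y hy using fun i => Ideal.Quotient.mk_surjective (I := L) (x i)
    have := congrArg (Ideal.Quotient.mk L) (hPI y)
    rw [map_sum, map_zero] at this
    rw [← this]
    refine Finset.sum_congr rfl fun σ _ => ?_
    rw [map_mul, map_intCast, map_list_prod, List.map_ofFn]
    congr 3
    funext i
    simp [hy]
  refine ⟨J, ?_, ?_, ?_⟩
  · constructor
    intro a b ha
    show Ideal.Quotient.mk I (a * b) ∈ L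
    rw [map_mul]
    exact Ideal.mul_mem_right _ _ ha
  · refine LN_ext hLN ?_
    intro X hX
    obtain ⟨N, hN⟩ := hLLN (X.image (Ideal.Quotient.mk I)) (by
      intro y hy
      rw [Finset.coe_image] at hy
      obtain ⟨x, hx, rfl⟩ := hy
      exact hX hx)
    refine ⟨N, fun l hl hlen => ?_⟩
    show l.prod ∈ I
    rw [← Ideal.Quotient.eq_zero_iff_mem, map_list_prod]
    refine hN _ ?_ (by rw [List.length_map, hlen])
    intro y hy
    rw [List.mem_map] at hy
    obtain ⟨x, hx, rfl⟩ := hy
    exact Finset.mem_image_of_mem _ (hl x hx)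
  · intro r hr
    have hne : Ideal.Quotient.mk L (Ideal.Quotient.mk I r) ≠ 0 := by
      intro h0
      have h1 : Ideal.Quotient.mk I r ∈ L := Ideal.Quotient.eq_zero_iff_mem.mp h0
      exact hr h1
    obtain ⟨K, hK, j, φ, hφ, hφ2⟩ := exists_rep k c hc hPI' hL0 _ hne
    exact ⟨K, hK, j, (φ.comp (Ideal.Quotient.mk L)).comp (Ideal.Quotient.mk I),
      rep_le' k c hc hPI' φ hφ, hφ2⟩

end Pool.Agent.U379.PI
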