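import Pool.Agent.U379.PI.E
import Pool.Agent.TH35.MG.Thm
import Pool.Agent.H798R3.MG.P.N

/-!
# The mapping class group over rings which are locally nilpotent by PI
-/

set_option autoImplicit false

namespace Pool.Agent.U379.PI.MG

open Pool.Agent.H29R2.MG Pool.Agent.TH35.MG Pool.Agent.H798R3.MG Pool.Agent.H29R2.QD
  Pool.Agent.Helper950.BG Pool.Agent.Helper58.EN Pool.Agent.U379.PI Pool.Agent.N506.EX
open scoped commutatorElement

open Pool.Agent.H798R3.MG.TN in
/-- the pushes act on the homomorphisms to the alternating group -/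
theorem rep_sal (g n : ℕ) (hn : 2 ≤ n) (hg : n < g)
    (hOK : ∀ i < 2, OrOK g (hal g n i) (hal' g n i)) :
    Rep g n ((sal g n 0 : orSub g) : MulAut (FG g)) TN.x ∧
      Rep g n ((sal g n 1 : orSub g) : MulAut (FG g)) TN.y := by
  have h0 : (0 : ℕ) < g := by omega
  have h1 : (1 : ℕ) < g := by omega
  have e0 : ∀ s, F g n s (Pool.Agent.H798R3.MG.ha g 0) = TN.x := by
    intro s
    rw [Pool.Agent.H798R3.MG.ha, dif_pos h0, F_fa, if_pos rfl]
  have e1 : ∀ s, F g n s (Pool.Agent.H798R3.MG.ha g 1) = TN.y := by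
    intro s
    rw [Pool.Agent.H798R3.MG.ha, dif_pos h1, F_fa, if_neg (by norm_num), if_pos rfl]
  constructor
  · intro s w
    have h := mkS_apply (hOK 0 (by norm_num)) w
    have h2 := DFunLike.congr_fun (F_hal hn hg s 0 TN.x (by norm_num) (e0 s)) w
    rw [MonoidHom.comp_apply] at h2
    rw [← h2, ← h]
    rfl
  · intro s w
    have h := mkS_apply (hOK 1 (by norm_num)) w
    have h2 := DFunLike.congr_fun (F_hal hn hg s 1 TN.y (by norm_num) (e1 s)) w
    rw [MonoidHom.comp_apply] at h2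
    rw [← h2, ← h]
    rfl

open Pool.Agent.H798R3.MG.TN in
/-- such automorphisms are not inner -/
theorem not_inner (g n : ℕ) (hn : 2 ≤ n) (hg : n < g) (φ : MulAut (FG g))
    (rp : Rep g n φ TN.x) : ¬ ∃ u : SurfaceGroup g, ∀ w : FG g, mk g (φ w) = u * mk g w * u⁻¹ := by
  have h0 : (0 : ℕ) < g := by omega
  have h1 : (1 : ℕ) < g := by omega
  have e0 : ∀ s, F g n s (Pool.Agent.H798R3.MG.ha g 0) = TN.x := by
    intro s
    rw [Pool.Agent.H798R3.MG.ha, dif_pos h0, F_fa, if_pos rfl]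
  have e1 : ∀ s, F g n s (Pool.Agent.H798R3.MG.ha g 1) = TN.y := by
    intro s
    rw [Pool.Agent.H798R3.MG.ha, dif_pos h1, F_fa, if_neg (by norm_num), if_pos rfl]
  rintro ⟨u, hu⟩
  have key : ∀ w, F g n (TN.x⁻¹ * 1) w = outHom (F g n 1) (F_rel 1) u * F g n 1 w *
      (outHom (F g n 1) (F_rel 1) u)⁻¹ := by
    intro w
    rw [← rp 1 w]
    have h := congrArg (outHom (F g n 1) (F_rel 1)) (hu w)
    rw [map_mul, map_mul, map_inv, outHom_mk, outHom_mk] at h
    exact h
  generalize outHom (F g n 1) (F_rel 1) u = v at key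
  have k0 := key (Pool.Agent.H798R3.MG.ha g 0)
  have k1 := key (Pool.Agent.H798R3.MG.ha g 1)
  rw [e0, e0] at k0
  rw [e1, e1] at k1
  have hv : v = 1 := cent v k0.symm k1.symm
  have k2 := key (fa ⟨n, hg⟩)
  rw [F_fa, F_fa, hv] at k2
  have hn0 : ¬ ((⟨n, hg⟩ : Fin g).val = 0) := by simp only; omega
  have hn1 : ¬ ((⟨n, hg⟩ : Fin g).val = 1) := by simp only; omega
  rw [if_neg hn0, if_neg hn1, if_pos rfl, if_neg hn0, if_neg hn1, if_pos rfl] at k2
  apply zx
  simpa [mul_assoc] using k2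

/-- A finitely generated subgroup `Γ` of the group of automorphisms, and elements `p`, `q` of it
killed by all the representations of small dimension, which generate subgroups with nontrivial
derived series in `Mod g`. -/
theorem exists_two (g : ℕ) (hg : 5 ≤ g) :
    ∃ (Γ : Type) (_ : Group Γ) (φ : Γ →* Mod g) (S : Finset Γ) (p q : Γ),
      Subgroup.closure (S : Set Γ) = ⊤ ∧
      (∀ (K : Type) [Field K] (d : ℕ) (f : Γ →* Matrix.GeneralLinearGroup (Fin d) K),
        d < 2 ^ (g - 5) → f p = 1 ∧ f q = 1) ∧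
      ∀ k, ∃ x ∈ dser (Subgroup.closure {φ p, φ q}) k, x ≠ 1 := by
  classical
  obtain ⟨Γ, A, B, al, be, T, tau, r, hgen, -, -, hal, -, -⟩ :=
    setup (g := g) (N := g - 3) (by omega) (by omega)
  set φ : Γ →* Mod g := (modF g).comp Γ.subtype with hφ
  have hN : g - 3 + 2 = g - 1 := by omega
  rw [hN] at hal
  have c : Ctx g (g - 3) (g - 3 + 2) := ⟨by omega, le_refl _, by omega⟩
  have hok : ∀ i < 2, OrOK g (Pool.Agent.H798R3.MG.hal g (g - 1) i)
      (hal' g (g - 1) i) := by
    intro i hi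
    have := ((whyp.k g (g - 3) (g - 3 + 2) c.h2 c.hN c.hg).1 i (by omega)).2.2.1
    rwa [hN] at this
  obtain ⟨rs0, rs1⟩ := rep_sal g (g - 1) (by omega) (by omega) hok
  set θ : Γ →* MulAut (FG g) := (orSub g).subtype.comp Γ.subtype with hθ
  have ra : TN.Rep g (g - 1) (θ (al 0)) TN.x := by
    have h1 : θ (al 0) = ((sal g (g - 1) 0 : orSub g) : MulAut (FG g)) := by
      rw [← hal 0 (by omega)]
      rfl
    rw [h1]
    exact rs0
  have rb : TN.Rep g (g - 1) (θ (al 1)) TN.y := by
    have h1 : θ (al 1) = ((sal g (g - 1) 1 : orSub g) : MulAut (FG g)) := by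
      rw [← hal 1 (by omega)]
      rfl
    rw [h1]
    exact rs1
  obtain ⟨p, hp, q, hq, rp, rq⟩ := TN.perf θ (PiT (g - 3) al be tau) (al 0) (al 1)
    (Subgroup.subset_closure (Or.inl (Or.inl ⟨0, by omega, rfl⟩)))
    (Subgroup.subset_closure (Or.inl (Or.inl ⟨1, by omega, rfl⟩))) ra rb (2 ^ (g - 5))
  have hfin : (allH (g - 3) A B al be T tau).Finite := by
    have : allH (g - 3) A B al be T tau ⊆
        (A '' Set.Iio (g - 3)) ∪ (B '' Set.Iio (g - 3)) ∪ (al '' Set.Iio (g - 3)) ∪
          (be '' Set.Iio (g - 3)) ∪ (T '' Set.Iio (g - 3)) ∪ {tau} := by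
      rintro x (⟨i, hi, h | h | h | h⟩ | ⟨i, hi, h⟩ | h)
      · exact Or.inl (Or.inl (Or.inl (Or.inl (Or.inl ⟨i, hi, h.symm⟩))))
      · exact Or.inl (Or.inl (Or.inl (Or.inl (Or.inr ⟨i, hi, h.symm⟩))))
      · exact Or.inl (Or.inl (Or.inl (Or.inr ⟨i, hi, h.symm⟩)))
      · exact Or.inl (Or.inl (Or.inr ⟨i, hi, h.symm⟩))
      · exact Or.inl (Or.inr ⟨i, by rw [Set.mem_Iio]; omega, h.symm⟩)
      · exact Or.inr h
    refine Set.Finite.subset ?_ this
    have hI := Set.finite_Iio (g - 3)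
    exact (((((hI.image _).union (hI.image _)).union (hI.image _)).union (hI.image _)).union
      (hI.image _)).union (Set.finite_singleton _)
  refine ⟨Γ, inferInstance, φ, hfin.toFinset, p, q, ?_, ?_, ?_⟩
  · rw [Set.Finite.coe_toFinset]
    exact hgen
  · intro K _ d f hd
    have h4 := solvable_std (K := AlgebraicClosure K) r (by omega) hgen (2 ^ (g - 5))
      (Fin d → AlgebraicClosure K) ((glEnd d K).comp f)
      (by
        rw [show g - 3 - 2 = g - 5 by omega]
        simpa using hd) (by simpa using hd.le)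
    constructor
    · have h5 := h4 hp
      rw [MonoidHom.mem_ker] at h5
      apply glEnd_inj d K
      rw [map_one]
      exact h5
    · have h5 := h4 hq
      rw [MonoidHom.mem_ker] at h5
      apply glEnd_inj d K
      rw [map_one]
      exact h5
  · intro k
    obtain ⟨p', hp', q', hq', rp', rq'⟩ := TN.perf θ (Subgroup.closure {p, q}) p q
      (Subgroup.subset_closure (by simp)) (Subgroup.subset_closure (by simp)) rp rq k
    refine ⟨φ p', ?_, ?_⟩
    · have h1 := Subgroup.mem_map_of_mem φ hp'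
      rw [← dser_map, MonoidHom.map_closure, Set.image_pair] at h1
      exact h1
    · intro h
      exact not_inner g (g - 1) (by omega) (by omega) (θ p') rp' (modF_ker h)

end Pool.Agent.U379.PI.MG
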