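import Pool.Agent.U379.PI.F

/-!
# Images of small finitely generated subgroups
-/

set_option autoImplicit false

namespace Pool.Agent.U379.PI

open Pool.Agent.Helper58.EN Pool.Agent.N506.EX

/-- A homomorphism from a finitely generated group to `GL_n(A)` factors through `GL_n(A0)` for a
finitely generated subring `A0`. -/
theorem exists_subring {Γ : Type} [Group Γ] (S : Finset Γ) (hS : Subgroup.closure (S : Set Γ) = ⊤)
    {A : Type} [Ring A] {n : ℕ} (F0 : Γ →* (Matrix (Fin n) (Fin n) A)ˣ) :
    ∃ (Y : Finset A) (F : Γ →* (Matrix (Fin n) (Fin n) (Subring.closure (Y : Set A)))ˣ),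
      ∀ x, glMap n (Subring.closure (Y : Set A)).subtype (F x) = F0 x := by
  classical
  let Y : Finset A := S.biUnion fun g => Finset.univ.biUnion fun i => Finset.univ.biUnion fun j =>
    {(F0 g : Matrix (Fin n) (Fin n) A) i j,
      (((F0 g)⁻¹ : (Matrix (Fin n) (Fin n) A)ˣ) : Matrix (Fin n) (Fin n) A) i j}
  let A0 : Subring A := Subring.closure (Y : Set A)
  have hmapinj : Function.Injective (A0.subtype.mapMatrix :
      Matrix (Fin n) (Fin n) A0 →+* Matrix (Fin n) (Fin n) A) := by
    intro a b hab
    ext i j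
    exact congrFun (congrFun hab i) j
  have hle : ∀ x, F0 x ∈ (glMap n A0.subtype).range := by
    intro x
    have hx : x ∈ Subgroup.closure (S : Set Γ) := by rw [hS]; trivial
    induction hx using Subgroup.closure_induction with
    | mem g hg =>
      have h1 : ∀ i j, (F0 g : Matrix (Fin n) (Fin n) A) i j ∈ A0 := fun i j =>
        Subring.subset_closure (by
        simp only [Y, Finset.coe_biUnion, Set.mem_iUnion]
        exact ⟨g, hg, i, Finset.mem_coe.mpr (Finset.mem_univ _), j,
          Finset.mem_coe.mpr (Finset.mem_univ _), by simp⟩)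
      have h2 : ∀ i j, (((F0 g)⁻¹ : (Matrix (Fin n) (Fin n) A)ˣ) : Matrix (Fin n) (Fin n) A) i j
          ∈ A0 := fun i j => Subring.subset_closure (by
        simp only [Y, Finset.coe_biUnion, Set.mem_iUnion]
        exact ⟨g, hg, i, Finset.mem_coe.mpr (Finset.mem_univ _), j,
          Finset.mem_coe.mpr (Finset.mem_univ _), by simp⟩)
      refine ⟨⟨Matrix.of fun i j => ⟨_, h1 i j⟩, Matrix.of fun i j => ⟨_, h2 i j⟩, ?_, ?_⟩, ?_⟩
      · apply hmapinj
        rw [map_mul, map_one]
        exact (F0 g).mul_inv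
      · apply hmapinj
        rw [map_mul, map_one]
        exact (F0 g).inv_mul
      · apply Units.ext
        rfl
    | one => rw [map_one]; exact one_mem _
    | mul a b _ _ ha hb => rw [map_mul]; exact mul_mem ha hb
    | inv a _ ha => rw [map_inv]; exact inv_mem ha
  let e := MonoidHom.ofInjective (glMap_injective n A0.subtype A0.subtype_injective)
  refine ⟨Y, e.symm.toMonoidHom.comp (F0.codRestrict _ hle), fun x => ?_⟩
  have h3 := e.apply_symm_apply ⟨F0 x, hle x⟩
  have h4 := congrArg Subtype.val h3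
  exact h4

/-- Elements which are killed by all the representations of dimension `< D` over all fields are
congruent to `1` modulo a locally nilpotent ideal. -/
theorem sub_one_mem {Γ : Type} [Group Γ] {k : ℕ} {R : Type} [Ring R] (J : Ideal R)
    (hJ : ∀ r, r ∉ J → ∃ (K : Type) (_ : Field K) (j : ℕ) (φ : R →+* Matrix (Fin j) (Fin j) K),
        2 * j ≤ k ∧ φ r ≠ 0) {n D : ℕ} (hD : n * (k / 2) < D) (p : Γ)
    (hp : ∀ (K : Type) [Field K] (d : ℕ) (f : Γ →* Matrix.GeneralLinearGroup (Fin d) K),
        d < D → f p = 1) (F : Γ →* (Matrix (Fin n) (Fin n) R)ˣ) (a b : Fin n) :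
    ((F p : Matrix (Fin n) (Fin n) R) - 1) a b ∈ J := by
  classical
  by_contra hr
  obtain ⟨K, hK, j, ψ, hj, hne⟩ := hJ _ hr
  let e : Matrix (Fin n) (Fin n) (Matrix (Fin j) (Fin j) K) ≃+*
      Matrix (Fin (n * j)) (Fin (n * j)) K :=
    (Matrix.compRingEquiv (Fin n) (Fin j) K).trans (Matrix.reindexRingEquiv K finProdFinEquiv)
  let f : Γ →* Matrix.GeneralLinearGroup (Fin (n * j)) K :=
    ((Units.mapEquiv e.toMulEquiv).toMonoidHom.comp (glMap n ψ)).comp F
  have hd : n * j < D := by
    refine lt_of_le_of_lt ?_ hD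
    exact Nat.mul_le_mul_left n (by omega)
  have h1 := hp K (n * j) f hd
  have h2 : glMap n ψ (F p) = 1 := by
    apply (Units.mapEquiv e.toMulEquiv).injective
    rw [map_one]
    exact h1
  apply hne
  have h3 := congrArg (fun x : (Matrix (Fin n) (Fin n) (Matrix (Fin j) (Fin j) K))ˣ =>
    (x : Matrix (Fin n) (Fin n) (Matrix (Fin j) (Fin j) K)) a b) h2
  simp only [Units.val_one] at h3
  rw [glMap_apply] at h3
  rw [Matrix.sub_apply, map_sub, h3, Matrix.one_apply, Matrix.one_apply]
  split_ifs <;> simp

/-- The image of a subgroup generated by such elements is solvable. -/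
theorem solvable_image {Γ : Type} [Group Γ] (S : Finset Γ)
    (hS : Subgroup.closure (S : Set Γ) = ⊤) (T : Finset Γ) (D : ℕ)
    (hT : ∀ p ∈ T, ∀ (K : Type) [Field K] (d : ℕ) (f : Γ →* Matrix.GeneralLinearGroup (Fin d) K),
        d < D → f p = 1)
    {A : Type} [Ring A] {k n : ℕ}
    (hA : ∀ Y : Finset A, ∃ k' ≤ k, NilByPIdeg k' (Subring.closure (Y : Set A)))
    (hD : n * (k / 2) < D) (F0 : Γ →* (Matrix (Fin n) (Fin n) A)ˣ) :
    Group.IsSolvable ((Subgroup.closure (T : Set Γ)).map F0) := by
  classical
  obtain ⟨Y, F, hF⟩ := exists_subring S hS F0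
  obtain ⟨k', hk', hY⟩ := hA Y
  obtain ⟨J, hJ2, hJLN, hJ⟩ := hY.reps
  have hD' : n * (k' / 2) < D :=
    lt_of_le_of_lt (Nat.mul_le_mul_left n (Nat.div_le_div_right hk')) hD
  let I : Ideal (Matrix (Fin n) (Fin n) (Subring.closure (Y : Set A))) :=
    { carrier := {x | ∀ i j, x i j ∈ (J : Set (Subring.closure (Y : Set A)))}
      add_mem' := by
        intro x y hx hy i j
        rw [Matrix.add_apply]
        exact J.add_mem (hx i j) (hy i j)
      zero_mem' := by
        intro i j
        exact J.zero_mem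
      smul_mem' := by
        intro c x hx i j
        rw [smul_eq_mul, Matrix.mul_apply]
        exact J.sum_mem fun l _ => J.mul_mem_left _ (hx l j) }
  have hI2 : I.IsTwoSided := by
    constructor
    intro x y hx i j
    rw [Matrix.mul_apply]
    exact J.sum_mem fun l _ => J.mul_mem_right _ (hx i l)
  have hI : LN (I : Set (Matrix (Fin n) (Fin n) (Subring.closure (Y : Set A)))) :=
    LN_matrix n hJLN
  have hsol := ln_solvable I hI (T.image F) (by
    intro u hu
    rw [Finset.mem_image] at hu
    obtain ⟨p, hp, rfl⟩ := hu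
    intro a b
    exact sub_one_mem J hJ hD' p (fun K _ d f hd => hT p hp K d f hd) F a b)
  have h1 : (Subgroup.closure (T : Set Γ)).map F0 =
      (Subgroup.closure ((T.image F : Finset _) : Set _)).map
        (glMap n (Subring.closure (Y : Set A)).subtype) := by
    have h2 : F0 = (glMap n (Subring.closure (Y : Set A)).subtype).comp F := by
      ext x : 1
      exact (hF x).symm
    rw [Finset.coe_image, ← MonoidHom.map_closure, Subgroup.map_map, ← h2]
  rw [h1]
  exact Group.isSolvable_of_surjective (MonoidHom.subgroupMap_surjective _ _)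

end Pool.Agent.U379.PI
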