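import Pool.Agent.U379.PI.G
import Pool.Agent.N66.CQ.Main

/-!
# Groups of matrices over rings of `p`-power characteristic
-/

set_option autoImplicit false

namespace Pool.Agent.U379.PI

open Pool.Agent.Helper58.EN Pool.Agent.N506.EX

/-- A finitely generated group of units for which the products of three elements `x - 1` lie in a
locally nilpotent ideal is finite if the characteristic of the ring is positive. -/
theorem finite_units {R : Type} [Ring R] {q : ℕ} (hq : 0 < q) (hq0 : (q : R) = 0)
    (G : Subgroup Rˣ) (hG : G.FG) (I : Set R) (hI : LN I)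
    (h3 : ∀ x ∈ G, ∀ y ∈ G, ∀ z ∈ G, ((x : R) - 1) * ((y : R) - 1) * ((z : R) - 1) ∈ I) :
    Finite G := by
  classical
  obtain ⟨S, hS⟩ := hG
  let U : Finset R := (S ∪ S.image (fun x => x⁻¹)).image (fun x : Rˣ => (x : R) - 1)
  have hU : ∀ u ∈ U, ∃ x ∈ G, u = (x : R) - 1 := by
    intro u hu
    simp only [U, Finset.mem_image, Finset.mem_union] at hu
    obtain ⟨x, hx | ⟨y, hy, rfl⟩, rfl⟩ := hu
    · exact ⟨x, hS ▸ Subgroup.subset_closure hx, rfl⟩
    · exact ⟨y⁻¹, inv_mem (hS ▸ Subgroup.subset_closure hy), rfl⟩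
  let X : Finset R := (U ×ˢ U ×ˢ U).image (fun t => t.1 * t.2.1 * t.2.2)
  have hX : (X : Set R) ⊆ I := by
    intro t ht
    simp only [X, Finset.coe_image, Set.mem_image, Finset.mem_coe, Finset.mem_product] at ht
    obtain ⟨⟨a, b, c⟩, ⟨ha, hb, hc⟩, rfl⟩ := ht
    obtain ⟨x, hx, rfl⟩ := hU a ha
    obtain ⟨y, hy, hy'⟩ := hU b hb
    obtain ⟨z, hz, hz'⟩ := hU c hc
    show ((x : R) - 1) * b * c ∈ I
    have hy'' : b = (y : R) - 1 := hy'
    have hz'' : c = (z : R) - 1 := hz'
    rw [hy'', hz'']
    exact h3 x hx y hy z hz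
  obtain ⟨N, hN⟩ := hI X hX
  -- products of `3 N` elements of `U` vanish
  have hgrp : ∀ (m : ℕ) (l : List R), (∀ x ∈ l, x ∈ U) → l.length = 3 * m →
      ∃ l' : List R, (∀ x ∈ l', x ∈ X) ∧ l'.length = m ∧ l'.prod = l.prod := by
    intro m
    induction m with
    | zero =>
      intro l _ hl
      have : l = [] := List.eq_nil_of_length_eq_zero (by omega)
      subst this
      exact ⟨[], by simp, rfl, rfl⟩
    | succ m ih =>
      intro l hl hlen
      match l, hl, hlen with
      | a :: b :: c :: l, hl, hlen =>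
        obtain ⟨l', h1, h2, h3⟩ := ih l (fun x hx => hl x (by simp [hx]))
          (by simp only [List.length_cons] at hlen; omega)
        refine ⟨a * b * c :: l', ?_, by simp [h2], ?_⟩
        · intro x hx
          rcases List.mem_cons.1 hx with rfl | hx
          · simp only [X, Finset.mem_image, Finset.mem_product]
            exact ⟨(a, b, c), ⟨hl a (by simp), hl b (by simp), hl c (by simp)⟩, rfl⟩
          · exact h1 x hx
        · simp only [List.prod_cons, h3, mul_assoc]
      | [], _, hlen => simp at hlen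
      | [_], _, hlen => simp only [List.length_cons, List.length_nil] at hlen; omega
      | [_, _], _, hlen => simp only [List.length_cons, List.length_nil] at hlen; omega
  have hzero : ∀ l : List R, (∀ x ∈ l, x ∈ U) → l.length = 3 * N → l.prod = 0 := by
    intro l hl hlen
    obtain ⟨l', h1, h2, h3⟩ := hgrp N l hl hlen
    rw [← h3]
    exact hN l' h1 h2
  -- the finite set of the products of fewer than `3 N` elements
  let W : Set R := {w | ∃ l : List R, (∀ x ∈ l, x ∈ U) ∧ l.length < 3 * N ∧ l.prod = w}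
  have hW : W.Finite := by
    have h1 : {l : List U | l.length < 3 * N}.Finite := List.finite_length_lt _ _
    refine (h1.image (fun l => (l.map Subtype.val).prod)).subset ?_
    rintro w ⟨l, hl, hlen, rfl⟩
    refine ⟨l.attach.map (fun x => ⟨x.1, hl x.1 x.2⟩), ?_, ?_⟩
    · simpa using hlen
    · simp only [List.map_map]
      congr 1
      conv_rhs => rw [← List.attach_map_subtype_val l]
      rfl
  let A : AddSubgroup R := AddSubgroup.closure W
  have hAfin : Finite A := by
    have h1 : AddSubgroup.FG A := ⟨hW.toFinset, by rw [Set.Finite.coe_toFinset]⟩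
    have h2 : AddGroup.FG A := (AddGroup.fg_iff_addSubgroup_fg _).2 h1
    have h3 : Module.Finite ℤ A := Module.Finite.iff_addGroup_fg.2 h2
    apply AddCommGroup.finite_of_fg_isAddTorsion
    intro x
    rw [isOfFinAddOrder_iff_nsmul_eq_zero]
    refine ⟨q, hq, ?_⟩
    apply Subtype.ext
    show q • (x : R) = 0
    rw [nsmul_eq_mul, hq0, zero_mul]
  have hstep : ∀ u ∈ U, ∀ a ∈ A, u * a ∈ A := by
    intro u hu a ha
    induction ha using AddSubgroup.closure_induction with
    | mem a ha =>
      obtain ⟨l, hl, hlen, rfl⟩ := ha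
      by_cases hlt : l.length + 1 < 3 * N
      · apply AddSubgroup.subset_closure
        refine ⟨u :: l, ?_, by simpa using hlt, by simp⟩
        intro x hx
        rcases List.mem_cons.1 hx with rfl | hx
        · exact hu
        · exact hl x hx
      · have : (u :: l).prod = 0 := by
          apply hzero
          · intro x hx
            rcases List.mem_cons.1 hx with rfl | hx
            · exact hu
            · exact hl x hx
          · rw [List.length_cons]
            omega
        rw [List.prod_cons] at this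
        rw [this]
        exact A.zero_mem
    | zero => rw [mul_zero]; exact A.zero_mem
    | add a b _ _ ha hb => rw [mul_add]; exact A.add_mem ha hb
    | neg a _ ha => rw [mul_neg]; exact A.neg_mem ha
  have hmem : ∀ x ∈ G, ∀ a ∈ A, (x : R) * a ∈ A ∧ ((x⁻¹ : Rˣ) : R) * a ∈ A := by
    intro x hx
    rw [← hS] at hx
    have hs : ∀ s : Rˣ, (s : R) - 1 ∈ U → ∀ a ∈ A, (s : R) * a ∈ A := by
      intro s hs a ha
      have e : (s : R) * a = a + ((s : R) - 1) * a := by rw [sub_mul, one_mul]; abel
      rw [e]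
      exact A.add_mem ha (hstep _ hs a ha)
    induction hx using Subgroup.closure_induction with
    | mem s hs' =>
      intro a ha
      have hs'' : s ∈ S := hs'
      refine ⟨hs s ?_ a ha, hs s⁻¹ ?_ a ha⟩
      · exact Finset.mem_image.2 ⟨s, Finset.mem_union_left _ hs'', rfl⟩
      · exact Finset.mem_image.2 ⟨s⁻¹, Finset.mem_union_right _
          (Finset.mem_image.2 ⟨s, hs'', rfl⟩), rfl⟩
    | one => intro a ha; rw [inv_one, Units.val_one, one_mul]; exact ⟨ha, ha⟩
    | mul x y _ _ h1 h2 =>
      intro a ha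
      rw [mul_inv_rev, Units.val_mul, Units.val_mul, mul_assoc, mul_assoc]
      exact ⟨(h1 _ (h2 a ha).1).1, (h2 _ (h1 a ha).2).2⟩
    | inv x _ h1 =>
      intro a ha
      rw [inv_inv]
      exact ⟨(h1 a ha).2, (h1 a ha).1⟩
  rcases Nat.eq_zero_or_pos N with rfl | hNpos
  · -- the ring is trivial
    have h0 : (1 : R) = 0 := by
      have := hzero [] (by simp) (by simp)
      simpa using this
    have : Subsingleton R := subsingleton_of_zero_eq_one h0.symm
    infer_instance
  have h1A : (1 : R) ∈ A := AddSubgroup.subset_closure ⟨[], by simp, by simpa using hNpos, rfl⟩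
  refine Finite.of_injective (fun x : G => (⟨(x : Rˣ), by
    have := (hmem x.1 x.2 1 h1A).1
    rwa [mul_one] at this⟩ : A)) ?_
  intro x y hxy
  apply Subtype.ext
  apply Units.ext
  exact congrArg Subtype.val hxy

/-- A unit of finite order which is unipotent has `p`-power order if `p` is nilpotent. -/
theorem pow_order {R : Type} [Ring R] {p e : ℕ} (hp : p.Prime) (hpe : (p : R) ^ e = 0) {x : Rˣ}
    (hx : IsNilpotent ((x : R) - 1)) (hf : IsOfFinOrder x) : ∃ a, x ^ (p ^ a) = 1 := by
  have hpos := hf.orderOf_pos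
  obtain ⟨a, q, hq, ho⟩ := Nat.exists_eq_pow_mul_and_not_dvd hpos.ne' p hp.ne_one
  refine ⟨a, ?_⟩
  set y : Rˣ := x ^ (p ^ a) with hy
  have hyq : y ^ q = 1 := by rw [hy, ← pow_mul, ← ho, pow_orderOf_eq_one]
  have hyn : IsNilpotent ((y : R) - 1) := by
    have h1 : (y : R) - 1 = ((x : R) - 1) * ∑ i ∈ Finset.range (p ^ a), (x : R) ^ i := by
      rw [mul_geom_sum, hy, Units.val_pow_eq_pow_val]
    rw [h1]
    refine Commute.isNilpotent_mul_right ?_ hx
    refine Commute.sum_right _ _ _ fun i _ => ?_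
    exact (((Commute.refl (x : R)).pow_right i).sub_left (Commute.one_left _))
  have hsum : ((y : R) - 1) * ∑ i ∈ Finset.range q, (y : R) ^ i = 0 := by
    rw [mul_geom_sum, ← Units.val_pow_eq_pow_val, hyq, Units.val_one, sub_self]
  -- the sum is a unit
  have hun : IsUnit (∑ i ∈ Finset.range q, (y : R) ^ i) := by
    have h1 : ∑ i ∈ Finset.range q, (y : R) ^ i = (q : R) +
        ((y : R) - 1) * ∑ i ∈ Finset.range q, ∑ j ∈ Finset.range i, (y : R) ^ j := by
      rw [Finset.mul_sum]
      have h2 : ∀ i ∈ Finset.range q, ((y : R) - 1) * ∑ j ∈ Finset.range i, (y : R) ^ j =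
          (y : R) ^ i - 1 := fun i _ => mul_geom_sum _ _
      rw [Finset.sum_congr rfl h2, Finset.sum_sub_distrib]
      simp
    have hcop : Nat.Coprime q (p ^ e) :=
      Nat.Coprime.pow_right _ ((Nat.Prime.coprime_iff_not_dvd hp).2 hq).symm
    have hqu : IsUnit (q : R) := by
      have h3 := Nat.gcd_eq_gcd_ab q (p ^ e)
      rw [hcop.gcd_eq_one] at h3
      have h4 := congrArg (Int.cast : ℤ → R) h3
      have h5 : ((p ^ e : ℕ) : R) = 0 := by rw [Nat.cast_pow, hpe]
      simp only [Int.cast_add, Int.cast_mul, Int.cast_natCast] at h4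
      rw [h5, zero_mul, add_zero] at h4
      have h6 : (q : R) * (Nat.gcdA q (p ^ e) : R) = 1 := by rw [← h4]; simp
      refine ⟨⟨(q : R), (Nat.gcdA q (p ^ e) : R), h6, ?_⟩, rfl⟩
      rw [(Nat.cast_commute q _).symm.eq, h6]
    rw [h1]
    refine IsNilpotent.isUnit_add_left_of_commute ?_ hqu ?_
    · refine Commute.isNilpotent_mul_right ?_ hyn
      refine Commute.sum_right _ _ _ fun i _ => ?_
      refine Commute.sum_right _ _ _ fun j _ => ?_
      exact (((Commute.refl (y : R)).pow_right j).sub_left (Commute.one_left _))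
    · exact (Nat.cast_commute q _).symm
  apply Units.ext
  rw [Units.val_one, ← sub_eq_zero]
  exact (hun.mul_left_eq_zero).1 hsum

/-- Products `(x - 1) (y - 1) (z - 1)` which vanish in all the representations of dimension `< D`
over the fields of characteristic `p` lie in the matrices over a locally nilpotent ideal. -/
theorem triple_mem {Γ : Type} [Group Γ] {k : ℕ} {R : Type} [Ring R] (J : Ideal R)
    (hJ : ∀ r, r ∉ J → ∃ (K : Type) (_ : Field K) (j : ℕ) (φ : R →+* Matrix (Fin j) (Fin j) K),
        2 * j ≤ k ∧ φ r ≠ 0) {n D p e : ℕ} (hp : p.Prime) (hpe : (p : R) ^ e = 0)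
    (hD : n * (k / 2) < D) (x y z : Γ)
    (h : ∀ (K : Type) [Field K] [CharP K p] (d : ℕ) (f : Γ →* Matrix.GeneralLinearGroup (Fin d) K),
        d < D → ((f x : Matrix (Fin d) (Fin d) K) - 1) * ((f y : Matrix (Fin d) (Fin d) K) - 1) *
          ((f z : Matrix (Fin d) (Fin d) K) - 1) = 0)
    (F : Γ →* (Matrix (Fin n) (Fin n) R)ˣ) (a b : Fin n) :
    (((F x : Matrix (Fin n) (Fin n) R) - 1) * ((F y : Matrix (Fin n) (Fin n) R) - 1) *
      ((F z : Matrix (Fin n) (Fin n) R) - 1)) a b ∈ J := by
  classical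
  by_contra hr
  obtain ⟨K, hK, j, ψ, hj, hne⟩ := hJ _ hr
  have hj0 : 0 < j := by
    rcases Nat.eq_zero_or_pos j with rfl | h0
    · exact absurd (Subsingleton.elim _ _) hne
    · exact h0
  have hpK : (p : K) = 0 := by
    have h1 : ((p : Matrix (Fin j) (Fin j) K)) ^ e = 0 := by
      rw [← map_natCast ψ, ← map_pow, hpe, map_zero]
    have h2 := congrFun (congrFun h1 ⟨0, hj0⟩) ⟨0, hj0⟩
    rw [← Nat.cast_pow, ← Matrix.diagonal_natCast, Matrix.diagonal_apply_eq] at h2
    rw [Nat.cast_pow] at h2
    exact IsNilpotent.eq_zero ⟨e, h2⟩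
  have hchar : CharP K p := by
    obtain ⟨q, hq⟩ := CharP.exists K
    have h1 : q ∣ p := (CharP.cast_eq_zero_iff K q p).1 hpK
    rcases (Nat.dvd_prime hp).1 h1 with h2 | h2
    · exact absurd h2 (CharP.char_ne_one K q)
    · rwa [h2] at hq
  let e' : Matrix (Fin n) (Fin n) (Matrix (Fin j) (Fin j) K) ≃+*
      Matrix (Fin (n * j)) (Fin (n * j)) K :=
    (Matrix.compRingEquiv (Fin n) (Fin j) K).trans (Matrix.reindexRingEquiv K finProdFinEquiv)
  let Ψ : Matrix (Fin n) (Fin n) R →+* Matrix (Fin (n * j)) (Fin (n * j)) K :=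
    e'.toRingHom.comp ψ.mapMatrix
  let f : Γ →* Matrix.GeneralLinearGroup (Fin (n * j)) K := (Units.map Ψ.toMonoidHom).comp F
  have hd : n * j < D := by
    refine lt_of_le_of_lt ?_ hD
    exact Nat.mul_le_mul_left n (by omega)
  have h1 := h K (n * j) f hd
  have h2 : ∀ w : Γ, (f w : Matrix (Fin (n * j)) (Fin (n * j)) K) - 1 =
      Ψ ((F w : Matrix (Fin n) (Fin n) R) - 1) := by
    intro w
    rw [map_sub, map_one]
    rfl
  rw [h2, h2, h2, ← map_mul, ← map_mul] at h1
  have h3 : ψ.mapMatrix (((F x : Matrix (Fin n) (Fin n) R) - 1) *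
      ((F y : Matrix (Fin n) (Fin n) R) - 1) * ((F z : Matrix (Fin n) (Fin n) R) - 1)) = 0 := by
    apply e'.injective
    rw [map_zero]
    exact h1
  exact hne (congrFun (congrFun h3 a) b)

end Pool.Agent.U379.PI
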